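import Mathlib

/-!
# Exponential sums at the `N`-th roots of unity (package N)
-/

set_option autoImplicit false

open Finset ComplexConjugate

namespace Pool.Agent.Helper79.LC

/-- the `N`-th roots of unity -/
noncomputable def zt (N b : ℕ) : ℂ := Complex.exp (2 * Real.pi * Complex.I * (b / N))

theorem zt_eq_pow (N b : ℕ) : zt N b = Complex.exp (2 * Real.pi * Complex.I / N) ^ b := by
  rw [zt, ← Complex.exp_nat_mul]
  congr 1
  ring

theorem zt_norm (N b : ℕ) : ‖zt N b‖ = 1 := by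
  rw [zt, show (2 * Real.pi * Complex.I * (b / N) : ℂ) =
    ((2 * Real.pi * (b / N) : ℝ) : ℂ) * Complex.I by push_cast; ring]
  exact Complex.norm_exp_ofReal_mul_I _

theorem zt_conj (N b : ℕ) : conj (zt N b) = (zt N b)⁻¹ :=
  (Complex.inv_eq_conj (zt_norm N b)).symm

theorem zt_orth {N i j : ℕ} (hi : i < N) (hj : j < N) :
    ∑ b ∈ range N, zt N b ^ i * conj (zt N b) ^ j = if i = j then (N : ℂ) else 0 := by
  have hN : N ≠ 0 := by omega
  have hw := Complex.isPrimitiveRoot_exp N hN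
  have hw0 : Complex.exp (2 * Real.pi * Complex.I / N) ≠ 0 := Complex.exp_ne_zero _
  have e : ∀ b ∈ range N, zt N b ^ i * conj (zt N b) ^ j =
      (Complex.exp (2 * Real.pi * Complex.I / N) ^ i *
        (Complex.exp (2 * Real.pi * Complex.I / N))⁻¹ ^ j) ^ b := by
    intro b _
    rw [zt_conj, zt_eq_pow]
    generalize Complex.exp (2 * Real.pi * Complex.I / N) = w
    rw [mul_pow, ← pow_mul, ← pow_mul, inv_pow, inv_pow, inv_pow, ← pow_mul, ← pow_mul,
      mul_comm b i, mul_comm b j]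
  rw [sum_congr rfl e]
  generalize Complex.exp (2 * Real.pi * Complex.I / N) = w at hw hw0
  split_ifs with h
  · subst h
    rw [← mul_pow, mul_inv_cancel₀ hw0]
    simp
  · have hq : w ^ i * w⁻¹ ^ j ≠ 1 := by
      intro h1
      apply h
      apply hw.pow_inj hi hj
      have : w ^ i = w ^ i * w⁻¹ ^ j * w ^ j := by
        rw [mul_assoc, ← mul_pow, inv_mul_cancel₀ hw0, one_pow, mul_one]
      rw [this, h1, one_mul]
    have hqN : (w ^ i * w⁻¹ ^ j) ^ N = 1 := by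
      rw [mul_pow, ← pow_mul, ← pow_mul, mul_comm i N, mul_comm j N, pow_mul, pow_mul, inv_pow,
        hw.pow_eq_one, inv_one, one_pow, one_pow, one_mul]
    have h3 := geom_sum_mul (w ^ i * w⁻¹ ^ j) N
    rw [hqN, sub_self] at h3
    exact (mul_eq_zero.1 h3).resolve_right (sub_ne_zero.2 hq)

/-- PACKAGE N1 (discrete Parseval). -/
theorem dparseval {K N : ℕ} (hN : K < N) (c : ℕ → ℂ) :
    ∑ b ∈ range N, ‖∑ j ∈ Icc 1 K, c j * zt N b ^ j‖ ^ 2 = N * ∑ j ∈ Icc 1 K, ‖c j‖ ^ 2 := by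
  have key : ((∑ b ∈ range N, ‖∑ j ∈ Icc 1 K, c j * zt N b ^ j‖ ^ 2 : ℝ) : ℂ) =
      ((N * ∑ j ∈ Icc 1 K, ‖c j‖ ^ 2 : ℝ) : ℂ) := by
    push_cast
    have e : ∀ b ∈ range N, ((‖∑ j ∈ Icc 1 K, c j * zt N b ^ j‖ : ℝ) : ℂ) ^ 2 =
        ∑ i ∈ Icc 1 K, ∑ j ∈ Icc 1 K,
          c i * conj (c j) * (zt N b ^ i * conj (zt N b) ^ j) := by
      intro b _
      rw [← Complex.mul_conj', map_sum, sum_mul_sum]
      refine sum_congr rfl fun i _ => sum_congr rfl fun j _ => ?_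
      rw [map_mul, map_pow]
      ring
    rw [sum_congr rfl e, sum_comm, mul_sum]
    refine sum_congr rfl fun i hi => ?_
    rw [sum_comm, sum_eq_single i]
    · rw [← mul_sum, zt_orth (by rw [mem_Icc] at hi; omega) (by rw [mem_Icc] at hi; omega),
        if_pos rfl, ← Complex.mul_conj']
      ring
    · intro j hj hji
      rw [← mul_sum, zt_orth (by rw [mem_Icc] at hi; omega) (by rw [mem_Icc] at hj; omega),
        if_neg (Ne.symm hji), mul_zero]
    · intro h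
      exact absurd hi h
  exact_mod_cast key

/-- The Fejér weights. -/
noncomputable def fejW (m : ℕ) (y : ℂ) : ℝ := ‖∑ l ∈ range m, y ^ l‖ ^ 2

theorem fejW_nonneg (m : ℕ) (y : ℂ) : 0 ≤ fejW m y := by
  unfold fejW
  positivity

theorem fejW_sum {N m j : ℕ} (hN : m + j ≤ N) {z : ℂ} (hz : ‖z‖ = 1) :
    ∑ b ∈ range N, zt N b ^ j * (fejW m (z * conj (zt N b)) : ℂ) =
      (N : ℂ) * ((m - j : ℕ) : ℂ) * z ^ j := by
  have hzz : z * conj z = 1 := by
    rw [Complex.mul_conj', hz]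
    norm_num
  have e : ∀ b ∈ range N, zt N b ^ j * (fejW m (z * conj (zt N b)) : ℂ) =
      ∑ l ∈ range m, ∑ l' ∈ range m, z ^ l * conj z ^ l' *
        (zt N b ^ (j + l') * conj (zt N b) ^ l) := by
    intro b _
    rw [fejW]
    push_cast
    rw [← Complex.mul_conj', map_sum, sum_mul_sum, mul_sum]
    refine sum_congr rfl fun l _ => ?_
    rw [mul_sum]
    refine sum_congr rfl fun l' _ => ?_
    simp only [map_mul, map_pow, Complex.conj_conj]
    ring
  rw [sum_congr rfl e, sum_comm]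
  have e2 : ∀ l ∈ range m, ∑ b ∈ range N, ∑ l' ∈ range m, z ^ l * conj z ^ l' *
        (zt N b ^ (j + l') * conj (zt N b) ^ l) =
      ∑ l' ∈ range m, if j + l' = l then (N : ℂ) * z ^ j else 0 := by
    intro l hl
    rw [sum_comm]
    refine sum_congr rfl fun l' hl' => ?_
    rw [mem_range] at hl hl'
    rw [← mul_sum, zt_orth (by omega) (by omega)]
    split_ifs with h
    · rw [← h, pow_add, mul_assoc (z ^ j), ← mul_pow, hzz, one_pow]
      ring
    · rw [mul_zero]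
  rw [sum_congr rfl e2, sum_comm]
  have e3 : ∀ l' ∈ range m, (∑ l ∈ range m, if j + l' = l then (N : ℂ) * z ^ j else 0) =
      if l' < m - j then (N : ℂ) * z ^ j else 0 := by
    intro l' _
    rw [sum_ite_eq]
    by_cases h : l' < m - j
    · rw [if_pos h, if_pos (by rw [mem_range]; omega)]
    · rw [if_neg h, if_neg (by rw [mem_range]; omega)]
  rw [sum_congr rfl e3, ← sum_filter, sum_const]
  have e4 : (filter (fun l' => l' < m - j) (range m)) = range (m - j) := by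
    ext l'
    rw [mem_filter, mem_range, mem_range]
    omega
  rw [e4, card_range, nsmul_eq_mul]
  ring

/-- The Fejér means. -/
theorem fejer_bound {K N m : ℕ} (hm : 1 ≤ m) (hN : m + K ≤ N) (c : ℕ → ℂ) {B : ℝ}
    (hB : ∀ b < N, |(∑ j ∈ Icc 1 K, c j * zt N b ^ j).re| ≤ B) {z : ℂ} (hz : ‖z‖ = 1) :
    |(∑ j ∈ Icc 1 K, ((m - j : ℕ) : ℂ) / (m : ℂ) * (c j * z ^ j)).re| ≤ B := by
  have hm0 : (0 : ℝ) < m := by exact_mod_cast hm
  have hN0 : (0 : ℝ) < N := by
    have : 0 < N := by omega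
    exact_mod_cast this
  -- the sum of the weights
  have hW : ∑ b ∈ range N, fejW m (z * conj (zt N b)) = N * m := by
    have h := fejW_sum (N := N) (m := m) (j := 0) (by omega) hz
    simp only [pow_zero, one_mul, mul_one, Nat.sub_zero] at h
    exact_mod_cast h
  have hT : ∑ b ∈ range N, (∑ j ∈ Icc 1 K, c j * zt N b ^ j) * (fejW m (z * conj (zt N b)) : ℂ) =
      (N * m : ℂ) * ∑ j ∈ Icc 1 K, ((m - j : ℕ) : ℂ) / (m : ℂ) * (c j * z ^ j) := by
    have e : ∀ b ∈ range N, (∑ j ∈ Icc 1 K, c j * zt N b ^ j) * (fejW m (z * conj (zt N b)) : ℂ) =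
        ∑ j ∈ Icc 1 K, c j * (zt N b ^ j * (fejW m (z * conj (zt N b)) : ℂ)) := by
      intro b _
      rw [sum_mul]
      exact sum_congr rfl fun j _ => by ring
    rw [sum_congr rfl e, sum_comm, mul_sum]
    refine sum_congr rfl fun j hj => ?_
    rw [mem_Icc] at hj
    rw [← mul_sum, fejW_sum (by omega) hz]
    have : (m : ℂ) ≠ 0 := by exact_mod_cast hm0.ne'
    field_simp
  have hR : (N * m : ℝ) * (∑ j ∈ Icc 1 K, ((m - j : ℕ) : ℂ) / (m : ℂ) * (c j * z ^ j)).re =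
      ∑ b ∈ range N, (∑ j ∈ Icc 1 K, c j * zt N b ^ j).re * fejW m (z * conj (zt N b)) := by
    have h := congrArg Complex.re hT
    rw [Complex.re_sum] at h
    have h2 : ((N * m : ℂ) * ∑ j ∈ Icc 1 K, ((m - j : ℕ) : ℂ) / (m : ℂ) * (c j * z ^ j)).re =
        (N * m : ℝ) * (∑ j ∈ Icc 1 K, ((m - j : ℕ) : ℂ) / (m : ℂ) * (c j * z ^ j)).re := by
      rw [show ((N : ℂ) * (m : ℂ)) = (((N * m : ℝ)) : ℂ) by push_cast; ring, Complex.re_ofReal_mul]
    rw [h2] at h
    rw [← h]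
    refine sum_congr rfl fun b _ => ?_
    rw [Complex.re_mul_ofReal]
  have hpos : (0 : ℝ) < N * m := mul_pos hN0 hm0
  have hle : (N * m : ℝ) * |(∑ j ∈ Icc 1 K, ((m - j : ℕ) : ℂ) / (m : ℂ) * (c j * z ^ j)).re| ≤
      (N * m : ℝ) * B := by
    rw [← abs_of_pos hpos, ← abs_mul, abs_of_pos hpos, hR]
    calc |∑ b ∈ range N, (∑ j ∈ Icc 1 K, c j * zt N b ^ j).re * fejW m (z * conj (zt N b))| ≤
        ∑ b ∈ range N, |(∑ j ∈ Icc 1 K, c j * zt N b ^ j).re * fejW m (z * conj (zt N b))| :=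
          abs_sum_le_sum_abs _ _
      _ ≤ ∑ b ∈ range N, B * fejW m (z * conj (zt N b)) := by
          refine sum_le_sum fun b hb => ?_
          rw [abs_mul, abs_of_nonneg (fejW_nonneg _ _)]
          exact mul_le_mul_of_nonneg_right (hB b (mem_range.1 hb)) (fejW_nonneg _ _)
      _ = (N * m : ℝ) * B := by rw [← mul_sum, hW]; ring
  exact le_of_mul_le_mul_left hle hpos

/-- PACKAGE N2 (norming inequality). -/
theorem norming {K N : ℕ} (hK : 1 ≤ K) (hN : 3 * K ≤ N) (c : ℕ → ℂ) {B : ℝ}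
    (hB : ∀ b < N, |(∑ j ∈ Icc 1 K, c j * zt N b ^ j).re| ≤ B) {z : ℂ} (hz : ‖z‖ = 1) :
    |(∑ j ∈ Icc 1 K, c j * z ^ j).re| ≤ 3 * B := by
  have h1 := fejer_bound (m := 2 * K) (by omega) (by omega) c hB hz
  have h2 := fejer_bound (m := K) hK (by omega) c hB hz
  have hK0 : (K : ℂ) ≠ 0 := by
    have : K ≠ 0 := by omega
    exact_mod_cast this
  have e : ∑ j ∈ Icc 1 K, c j * z ^ j =
      2 * (∑ j ∈ Icc 1 K, ((2 * K - j : ℕ) : ℂ) / ((2 * K : ℕ) : ℂ) * (c j * z ^ j)) -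
        ∑ j ∈ Icc 1 K, ((K - j : ℕ) : ℂ) / (K : ℂ) * (c j * z ^ j) := by
    rw [mul_sum, ← sum_sub_distrib]
    refine sum_congr rfl fun j hj => ?_
    rw [mem_Icc] at hj
    rw [Nat.cast_sub (by omega : j ≤ 2 * K), Nat.cast_sub hj.2]
    push_cast
    field_simp
    ring
  have e2 := congrArg Complex.re e
  rw [Complex.sub_re, show (2 : ℂ) = ((2 : ℝ) : ℂ) by norm_num, Complex.re_ofReal_mul] at e2
  rw [e2, abs_le]
  rw [abs_le] at h1 h2
  constructor <;> linarith [h1.1, h1.2, h2.1, h2.2]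

end Pool.Agent.Helper79.LC
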