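import Pool.Agent.Helper79.LG.Rec
import Mathlib

/-! PACKAGE R: from separable polynomials of exact degree to all polynomials. -/

set_option autoImplicit false

open Finset Filter

namespace Pool.Agent.Helper79.LC

/-- R1 (same proof as `rec_count` in LG/Rec: `f = g h ^ 2` gives `MM h ^ 2 ≤ MM f`). -/
theorem rec_count' (n : ℕ) {T : ℝ} (hT : 1 ≤ T) :
    ((famZ n T).ncard : ℝ) ≤
      (∑ d ∈ range (n + 1), ((famQ d T).ncard : ℝ)) * (famZ (n / 2) (√T)).ncard := by
  classical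
  have hT0 : 0 ≤ T := by linarith
  have hsT0 : 0 ≤ √T := Real.sqrt_nonneg T
  set F : Finset (Polynomial ℤ) := (finite_famZ n hT0).toFinset with hF
  set F' : Finset (Polynomial ℤ) := (finite_famZ (n / 2) hsT0).toFinset with hF'
  set S : ℕ → Finset (Polynomial ℤ) := fun d => (finite_famQ d hT0).toFinset with hS
  have hc : (famZ n T).ncard = #F := Set.ncard_eq_toFinset_card _ (finite_famZ n hT0)
  have hc' : (famZ (n / 2) √T).ncard = #F' :=
    Set.ncard_eq_toFinset_card _ (finite_famZ (n / 2) hsT0)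
  have hcS : ∀ d, (famQ d T).ncard = #(S d) := fun d =>
    Set.ncard_eq_toFinset_card _ (finite_famQ d hT0)
  have hdec : ∀ f : Polynomial ℤ, ∃ g h : Polynomial ℤ, f ≠ 0 → (f = g * h ^ 2 ∧ Sq g ∧ h ≠ 0) := by
    intro f
    by_cases hf : f = 0
    · exact ⟨0, 0, fun h => absurd hf h⟩
    · obtain ⟨g, h, hh⟩ := sq_decomp f hf
      exact ⟨g, h, fun _ => hh⟩
  choose G H hGH using hdec
  have h1 : #F ≤ #(((range (n + 1)).biUnion S) ×ˢ F') := by
    apply card_le_card_of_injOn (fun f => (G f, H f))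
    · intro f hf
      rw [hF, Set.Finite.coe_toFinset] at hf
      obtain ⟨f1, f2, f3⟩ := hf
      obtain ⟨e1, e2, e3⟩ := hGH f f1
      have hdeg : f.natDegree = (G f).natDegree + 2 * (H f).natDegree := by
        conv_lhs => rw [e1]
        rw [Polynomial.natDegree_mul e2.ne_zero (pow_ne_zero 2 e3), Polynomial.natDegree_pow]
      have hM1 : MM (G f) ≤ MM f := MM_dvd f1 (Dvd.intro _ e1.symm)
      have hM2 : MM (H f) ≤ √T := by
        apply Real.le_sqrt_of_sq_le
        have e4 : MM f = MM (G f) * MM (H f) ^ 2 := by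
          conv_lhs => rw [e1]
          rw [MM_mul, pow_two, MM_mul, ← pow_two]
        have e5 := one_le_MM' e2.ne_zero
        have e6 : 0 ≤ MM (H f) ^ 2 := sq_nonneg _
        nlinarith
      rw [mem_coe, mem_product, mem_biUnion]
      refine ⟨⟨(G f).natDegree, ?_, ?_⟩, ?_⟩
      · rw [mem_range]; omega
      · rw [hS, Set.Finite.mem_toFinset]
        exact ⟨e2, rfl, hM1.trans f3⟩
      · rw [hF', Set.Finite.mem_toFinset]
        refine ⟨e3, ?_, hM2⟩
        change (H f).natDegree ≤ n / 2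
        omega
    · intro f hf g hg hfg
      rw [hF, Set.Finite.coe_toFinset] at hf hg
      have e1 := (hGH f hf.1).1
      have e2 := (hGH g hg.1).1
      have h2 : G f = G g := congrArg Prod.fst hfg
      have h3 : H f = H g := congrArg Prod.snd hfg
      rw [e1, e2, h2, h3]
  rw [hc, hc']
  have h2 : #F ≤ (∑ d ∈ range (n + 1), #(S d)) * #F' := by
    refine h1.trans ?_
    rw [card_product]
    exact Nat.mul_le_mul_right _ card_biUnion_le
  calc (#F : ℝ) ≤ (((∑ d ∈ range (n + 1), #(S d)) * #F' : ℕ) : ℝ) := by exact_mod_cast h2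
    _ = _ := by
        push_cast
        congr 1
        exact sum_congr rfl fun d _ => by rw [hcS d]

/-- The Mahler measure of `X ^ m - a`. -/
theorem mahler_X_pow_sub_C {m : ℕ} (hm : 1 ≤ m) (a : ℂ) :
    (Polynomial.X ^ m - Polynomial.C a).mahlerMeasure = max 1 ‖a‖ := by
  have hm0 : m ≠ 0 := by omega
  rw [Polynomial.mahlerMeasure_eq_leadingCoeff_mul_prod_roots,
    (Polynomial.monic_X_pow_sub_C a hm0).leadingCoeff, norm_one, one_mul]
  set P : Polynomial ℂ := Polynomial.X ^ m - Polynomial.C a with hP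
  have hP0 : P ≠ 0 := (Polynomial.monic_X_pow_sub_C a hm0).ne_zero
  have hcard : Multiset.card P.roots = m := by
    rw [← (IsAlgClosed.splits P).natDegree_eq_card_roots, hP, Polynomial.natDegree_X_pow_sub_C]
  have hroot : ∀ b ∈ P.roots, max 1 ‖b‖ = max 1 (‖a‖ ^ ((m : ℝ)⁻¹)) := by
    intro b hb
    have h1 : b ^ m = a := by
      have h2 := (Polynomial.mem_roots hP0).1 hb
      rw [Polynomial.IsRoot, hP, Polynomial.eval_sub, Polynomial.eval_pow, Polynomial.eval_X,
        Polynomial.eval_C] at h2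
      exact sub_eq_zero.1 h2
    congr 1
    rw [← h1, norm_pow, Real.pow_rpow_inv_natCast (norm_nonneg b) hm0]
  rw [Multiset.map_congr rfl hroot, Multiset.map_const', Multiset.prod_replicate, hcard]
  rcases le_total ‖a‖ 1 with h | h
  · have h1 : ‖a‖ ^ ((m : ℝ)⁻¹) ≤ 1 :=
      Real.rpow_le_one (norm_nonneg a) h (by positivity)
    rw [max_eq_left h1, max_eq_left h, one_pow]
  · have h1 : 1 ≤ ‖a‖ ^ ((m : ℝ)⁻¹) := Real.one_le_rpow h (by positivity)
    rw [max_eq_right h1, max_eq_right h, Real.rpow_inv_natCast_pow (norm_nonneg a) hm0]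

theorem mahler_expand {m : ℕ} (hm : 1 ≤ m) (F : Polynomial ℂ) :
    (Polynomial.expand ℂ m F).mahlerMeasure = F.mahlerMeasure := by
  have h1 : Polynomial.expand ℂ m F = Polynomial.C F.leadingCoeff *
      (F.roots.map fun a => Polynomial.X ^ m - Polynomial.C a).prod := by
    conv_lhs => rw [(IsAlgClosed.splits F).eq_prod_roots]
    rw [map_mul, Polynomial.expand_C, map_multiset_prod, Multiset.map_map]
    congr 2
    refine Multiset.map_congr rfl fun a _ => ?_
    simp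
  rw [h1, Polynomial.mahlerMeasure_mul, Polynomial.mahlerMeasure_const,
    Polynomial.prod_mahlerMeasure_eq_mahlerMeasure_prod, Multiset.map_map,
    Polynomial.mahlerMeasure_eq_leadingCoeff_mul_prod_roots F]
  congr 2
  refine Multiset.map_congr rfl fun a _ => ?_
  exact mahler_X_pow_sub_C hm a

theorem MM_expand {m : ℕ} (hm : 1 ≤ m) (f : Polynomial ℤ) :
    MM (Polynomial.expand ℤ m f) = MM f := by
  rw [MM, Polynomial.map_expand, mahler_expand hm]
  rfl

theorem Sq_expand {m : ℕ} (hm : 1 ≤ m) {f : Polynomial ℤ} (hf : Sq f) (h0 : f.coeff 0 ≠ 0) :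
    Sq (Polynomial.expand ℤ m f) := by
  have hm0 : m ≠ 0 := by omega
  rw [Sq, Polynomial.map_expand]
  set F : Polynomial ℚ := f.map (Int.castRingHom ℚ) with hF
  have hsep : F.Separable := hf
  have hF0 : F.coeff 0 ≠ 0 := by
    rw [hF, Polynomial.coeff_map]
    simpa using h0
  rw [Polynomial.Separable, Polynomial.derivative_expand]
  have h1 : IsCoprime (Polynomial.expand ℚ m F)
      (Polynomial.expand ℚ m (Polynomial.derivative F)) :=
    IsCoprime.map hsep (Polynomial.expand ℚ m).toRingHom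
  refine h1.mul_right (IsCoprime.mul_right ?_ (IsCoprime.pow_right ?_))
  · have : (m : Polynomial ℚ) = Polynomial.C (m : ℚ) := by simp
    rw [this]
    have hu : IsUnit (Polynomial.C (m : ℚ)) := by
      rw [Polynomial.isUnit_C, isUnit_iff_ne_zero]
      exact_mod_cast hm0
    exact (isCoprime_one_right.of_isCoprime_of_dvd_right (hu.dvd))
  · have hX : ¬ (Polynomial.X : Polynomial ℚ) ∣ Polynomial.expand ℚ m F := by
      rw [Polynomial.X_dvd_iff, Polynomial.coeff_expand (by omega), if_pos (dvd_zero m),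
        Nat.zero_div]
      exact hF0
    exact ((Polynomial.irreducible_X.coprime_iff_not_dvd).2 hX).symm

/-- R2 (`f ↦ f (X ^ m)`). -/
theorem famQ_expand {d m : ℕ} (hm : 1 ≤ m) {T : ℝ} (hT : 0 ≤ T) :
    {f : Polynomial ℤ | f ∈ famQ d T ∧ f.coeff 0 ≠ 0}.ncard ≤ (famQ (m * d) T).ncard := by
  refine Set.ncard_le_ncard_of_injOn (fun f => Polynomial.expand ℤ m f) ?_ ?_
    (finite_famQ (m * d) hT)
  · rintro f ⟨⟨h1, h2, h3⟩, h4⟩
    refine ⟨Sq_expand hm h1 h4, ?_, ?_⟩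
    · change (Polynomial.expand ℤ m f).natDegree = m * d
      rw [Polynomial.natDegree_expand, h2, mul_comm]
    · rw [MM_expand hm]
      exact h3
  · intro f _ g _ h
    exact Polynomial.expand_injective (by omega) h

/-- `f = X f₁`. -/
theorem famQ_split (d : ℕ) {T : ℝ} (hT : 0 ≤ T) :
    (famQ (d + 1) T).ncard ≤ {f : Polynomial ℤ | f ∈ famQ (d + 1) T ∧ f.coeff 0 ≠ 0}.ncard +
      {f : Polynomial ℤ | f ∈ famQ d T ∧ f.coeff 0 ≠ 0}.ncard := by
  have h1 : famQ (d + 1) T ⊆ {f : Polynomial ℤ | f ∈ famQ (d + 1) T ∧ f.coeff 0 ≠ 0} ∪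
      (fun f => Polynomial.X * f) '' {f : Polynomial ℤ | f ∈ famQ d T ∧ f.coeff 0 ≠ 0} := by
    intro f hf
    by_cases h0 : f.coeff 0 = 0
    · right
      obtain ⟨g, rfl⟩ := Polynomial.X_dvd_iff.2 h0
      obtain ⟨h2, h3, h4⟩ := hf
      have hg0 : g ≠ 0 := by
        rintro rfl
        exact h2.ne_zero (mul_zero _)
      have h2' : ((Polynomial.X * g).map (Int.castRingHom ℚ)).Separable := h2
      rw [Polynomial.map_mul, Polynomial.map_X] at h2'
      refine ⟨g, ⟨⟨?_, ?_, ?_⟩, ?_⟩, rfl⟩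
      · exact h2'.of_mul_right
      · change (Polynomial.X * g).natDegree = d + 1 at h3
        rw [Polynomial.natDegree_X_mul hg0] at h3
        omega
      · change MM (Polynomial.X * g) ≤ T at h4
        refine le_trans ?_ h4
        rw [MM_mul]
        have h5 : 1 ≤ MM Polynomial.X := one_le_MM' Polynomial.X_ne_zero
        have h6 : 1 ≤ MM g := one_le_MM' hg0
        nlinarith
      · intro h7
        obtain ⟨k, rfl⟩ := Polynomial.X_dvd_iff.2 h7
        have h8 := h2'.isCoprime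
        rw [Polynomial.map_mul, Polynomial.map_X] at h8
        have h9 : IsCoprime (Polynomial.X : Polynomial ℚ) Polynomial.X :=
          h8.of_isCoprime_of_dvd_right (Dvd.intro _ rfl)
        exact Polynomial.not_isUnit_X (isCoprime_self.1 h9)
    · left
      exact ⟨hf, h0⟩
  have hfin1 : {f : Polynomial ℤ | f ∈ famQ (d + 1) T ∧ f.coeff 0 ≠ 0}.Finite :=
    (finite_famQ (d + 1) hT).subset fun f hf => hf.1
  have hfin2 : {f : Polynomial ℤ | f ∈ famQ d T ∧ f.coeff 0 ≠ 0}.Finite :=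
    (finite_famQ d hT).subset fun f hf => hf.1
  refine (Set.ncard_le_ncard h1 (hfin1.union (hfin2.image _))).trans ?_
  refine (Set.ncard_union_le _ _).trans ?_
  exact Nat.add_le_add_left (Set.ncard_image_le hfin2) _

theorem famQ_mono (d : ℕ) {T T' : ℝ} (h : T ≤ T') (h0 : 0 ≤ T') :
    (famQ d T).ncard ≤ (famQ d T').ncard :=
  Set.ncard_le_ncard (fun _ hf => ⟨hf.1, hf.2.1, hf.2.2.trans h⟩) (finite_famQ d h0)

theorem famT_mono (d : ℕ) {T T' : ℝ} (h : T ≤ T') (h0 : 0 ≤ T') :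
    (famT d T).ncard ≤ (famT d T').ncard :=
  Set.ncard_le_ncard (fun _ hf => ⟨hf.1, hf.2.trans h⟩) (finite_famT d h0)

/-- The comparison of the bounds for the Mahler measure. -/
theorem rpow_cmp {δ n k : ℝ} (hδ : 0 < δ) (hδ1 : δ ≤ 1 / 4) (hn : 1 ≤ n) (hk : 0 ≤ k)
    (hnk : n ≤ 2 * k) (h2 : 2 ≤ n ^ (δ / 2)) : n ^ (1 / 2 - δ) ≤ k ^ (1 / 2 - δ / 2) := by
  have hn0 : 0 < n := by linarith
  have hpos : 0 < n ^ (1 / 2 - δ) := Real.rpow_pos_of_pos hn0 _
  have hk0 : 0 ≤ k ^ (1 / 2 - δ / 2) := Real.rpow_nonneg hk _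
  have h1 : n ^ (1 / 2 - δ) * n ^ (δ / 2) = n ^ (1 / 2 - δ / 2) := by
    rw [← Real.rpow_add hn0]
    congr 1
    ring
  have h3 : n ^ (1 / 2 - δ / 2) ≤ (2 * k) ^ (1 / 2 - δ / 2) :=
    Real.rpow_le_rpow hn0.le hnk (by linarith)
  have h4 : (2 * k) ^ (1 / 2 - δ / 2) ≤ 2 * k ^ (1 / 2 - δ / 2) := by
    rw [Real.mul_rpow (by norm_num) hk]
    have h5 : (2 : ℝ) ^ (1 / 2 - δ / 2) ≤ 2 ^ (1 : ℝ) :=
      Real.rpow_le_rpow_of_exponent_le (by norm_num) (by linarith)
    rw [Real.rpow_one] at h5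
    exact mul_le_mul_of_nonneg_right h5 hk0
  nlinarith

theorem ph_le {δ n : ℝ} (hn : 2 ≤ n) (hlog : Real.log n ≤ 1 / 2 * n ^ δ) :
    √((n + 1) * Real.log (n + 2)) ≤ 2 * n ^ (1 / 2 + δ / 2) := by
  have hn0 : 0 < n := by linarith
  have h1 : Real.log (n + 2) ≤ 2 * Real.log n := by
    have : Real.log (n + 2) ≤ Real.log (n ^ 2) := Real.log_le_log (by linarith) (by nlinarith)
    rwa [Real.log_pow] at this
  have h2 : Real.log (n + 2) ≤ n ^ δ := by linarith
  have h3 : 0 ≤ Real.log (n + 2) := Real.log_nonneg (by linarith)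
  rw [Real.sqrt_le_iff]
  refine ⟨by positivity, ?_⟩
  have h4 : (2 * n ^ (1 / 2 + δ / 2)) ^ 2 = 4 * (n * n ^ δ) := by
    rw [mul_pow, ← Real.rpow_natCast (n ^ (1 / 2 + δ / 2)) 2, ← Real.rpow_mul hn0.le]
    have : (1 / 2 + δ / 2) * ((2 : ℕ) : ℝ) = 1 + δ := by push_cast; ring
    rw [this, Real.rpow_add hn0, Real.rpow_one]
    ring
  rw [h4]
  have h5 : (0 : ℝ) ≤ n ^ δ := by positivity
  nlinarith

theorem W_main {δ : ℝ} (hδ : 0 < δ) (hδ1 : δ ≤ 1 / 4)
    (Wq : ∀ ε : ℝ, 0 < ε → ∀ᶠ n : ℕ in atTop,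
      ((famQ n ((n : ℝ) ^ (1 / 2 - δ / 2))).ncard : ℝ) ≤ Real.exp (ε * n)) {ε : ℝ} (hε : 0 < ε) :
    ∀ᶠ n : ℕ in atTop, ((famT n ((n : ℝ) ^ (1 / 2 - δ))).ncard : ℝ) ≤ Real.exp (4 * ε * n) := by
  obtain ⟨N0, hN0⟩ := eventually_atTop.1 (Wq ε hε)
  obtain ⟨C, hC, hfam⟩ := famZ_count
  have hcast : Tendsto (fun n : ℕ => (n : ℝ)) atTop atTop := tendsto_natCast_atTop_atTop
  have e1 : ∀ᶠ n : ℕ in atTop, 2 * (1 + Real.log n) ≤ ε * n := by
    have h1 : ∀ᶠ x : ℝ in atTop, ‖Real.log x‖ ≤ (ε / 4) * ‖id x‖ :=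
      Real.isLittleO_log_id_atTop.bound (by positivity)
    have h2 : ∀ᶠ x : ℝ in atTop, 4 / ε ≤ x := eventually_ge_atTop _
    filter_upwards [hcast.eventually h1, hcast.eventually h2] with n h3 h4
    have h5 : Real.log n ≤ ε / 4 * n := by
      have h6 := (le_abs_self _).trans h3
      rwa [id, Real.norm_of_nonneg (Nat.cast_nonneg n)] at h6
    rw [div_le_iff₀ hε] at h4
    linarith
  have e2 : ∀ᶠ n : ℕ in atTop, 2 ≤ (n : ℝ) ^ (δ / 2) :=
    ((tendsto_rpow_atTop (by positivity)).comp hcast).eventually_ge_atTop 2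
  have e3 : ∀ᶠ n : ℕ in atTop, 2 * C / ε ≤ (n : ℝ) ^ (δ / 2) :=
    ((tendsto_rpow_atTop (by positivity)).comp hcast).eventually_ge_atTop _
  have e4 : ∀ᶠ n : ℕ in atTop, Real.log n ≤ 1 / 2 * (n : ℝ) ^ δ := by
    have h1 : ∀ᶠ x : ℝ in atTop, ‖Real.log x‖ ≤ (1 / 2) * ‖x ^ δ‖ :=
      (isLittleO_log_rpow_atTop hδ).bound (by positivity)
    filter_upwards [hcast.eventually h1] with n h3
    have h6 := (le_abs_self _).trans h3
    rwa [Real.norm_of_nonneg (by positivity)] at h6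
  filter_upwards [e1, e2, e3, e4, eventually_ge_atTop (2 * N0), eventually_ge_atTop 2] with n
    h1 h2 h3 h4 h5 h6
  have hn2 : (2 : ℝ) ≤ n := by exact_mod_cast h6
  have hn0 : (0 : ℝ) < n := by linarith
  have hn1 : (1 : ℝ) ≤ n := by linarith
  set T : ℝ := (n : ℝ) ^ (1 / 2 - δ) with hT
  have hT1 : 1 ≤ T := Real.one_le_rpow hn1 (by linarith)
  have hT0 : 0 ≤ T := by linarith
  have hTn : T ≤ n := by
    rw [hT]
    calc (n : ℝ) ^ (1 / 2 - δ) ≤ (n : ℝ) ^ (1 : ℝ) :=
        Real.rpow_le_rpow_of_exponent_le hn1 (by linarith)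
      _ = n := Real.rpow_one _
  have hlogT : Real.log T ≤ Real.log n := Real.log_le_log (by linarith) hTn
  -- constants
  have hc0 : ((famQ 0 T).ncard : ℝ) ≤ Real.exp (ε * n) := by
    refine (crude_famQ 0 hT1).trans (Real.exp_le_exp.2 ?_)
    have : 2 * ((((0 : ℕ) : ℝ) + 1) ^ 2) * (1 + Real.log T) = 2 * (1 + Real.log T) := by
      push_cast
      ring
    rw [this]
    linarith
  have hA : ∀ d ≤ n, (({f : Polynomial ℤ | f ∈ famQ d T ∧ f.coeff 0 ≠ 0}.ncard : ℕ) : ℝ) ≤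
      Real.exp (ε * n) := by
    intro d hd
    rcases Nat.eq_zero_or_pos d with hd0 | hd0
    · subst hd0
      refine le_trans ?_ hc0
      have h7 : {f : Polynomial ℤ | f ∈ famQ 0 T ∧ f.coeff 0 ≠ 0}.ncard ≤ (famQ 0 T).ncard :=
        Set.ncard_le_ncard (fun f (hf : f ∈ famQ 0 T ∧ f.coeff 0 ≠ 0) => hf.1)
          (finite_famQ 0 hT0)
      exact_mod_cast h7
    · have hm : 1 ≤ n / d := (Nat.one_le_div_iff hd0).2 hd
      have hk1 : n / d * d ≤ n := Nat.div_mul_le_self n d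
      have hk2 : n ≤ 2 * (n / d * d) := by
        have h7 := Nat.div_add_mod n d
        have h8 := Nat.mod_lt n hd0
        have h9 : d ≤ n / d * d := Nat.le_mul_of_pos_left d hm
        rw [mul_comm] at h7
        omega
      have h7 := famQ_expand (d := d) hm hT0
      have h8 : T ≤ (((n / d * d : ℕ)) : ℝ) ^ (1 / 2 - δ / 2) := by
        refine rpow_cmp hδ hδ1 hn1 (Nat.cast_nonneg _) ?_ h2
        exact_mod_cast hk2
      have h9 := famQ_mono (n / d * d) h8 (hT0.trans h8)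
      have h10 := hN0 (n / d * d) (by omega)
      calc (({f : Polynomial ℤ | f ∈ famQ d T ∧ f.coeff 0 ≠ 0}.ncard : ℕ) : ℝ) ≤
          ((famQ (n / d * d) ((((n / d * d : ℕ)) : ℝ) ^ (1 / 2 - δ / 2))).ncard : ℝ) := by
            exact_mod_cast h7.trans h9
        _ ≤ Real.exp (ε * ((n / d * d : ℕ) : ℝ)) := h10
        _ ≤ Real.exp (ε * n) := by
            apply Real.exp_le_exp.2
            apply mul_le_mul_of_nonneg_left _ hε.le
            exact_mod_cast hk1
  have hQ : ∀ d ≤ n, ((famQ d T).ncard : ℝ) ≤ 2 * Real.exp (ε * n) := by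
    intro d hd
    have hpos := Real.exp_pos (ε * n)
    rcases Nat.eq_zero_or_pos d with hd0 | hd0
    · subst hd0
      linarith
    · obtain ⟨d, rfl⟩ : ∃ e, d = e + 1 := ⟨d - 1, by omega⟩
      have h7 := famQ_split d hT0
      have h8 := hA (d + 1) hd
      have h9 := hA d (by omega)
      have h10 : ((famQ (d + 1) T).ncard : ℝ) ≤
          (({f : Polynomial ℤ | f ∈ famQ (d + 1) T ∧ f.coeff 0 ≠ 0}.ncard : ℕ) : ℝ) +
          (({f : Polynomial ℤ | f ∈ famQ d T ∧ f.coeff 0 ≠ 0}.ncard : ℕ) : ℝ) := by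
        exact_mod_cast h7
      linarith
  have hsum : ∑ d ∈ range (n + 1), ((famQ d T).ncard : ℝ) ≤ Real.exp (2 * ε * n) := by
    calc ∑ d ∈ range (n + 1), ((famQ d T).ncard : ℝ) ≤
        ∑ d ∈ range (n + 1), 2 * Real.exp (ε * n) :=
          sum_le_sum fun d hd => hQ d (by rw [mem_range] at hd; omega)
      _ = (n + 1) * (2 * Real.exp (ε * n)) := by
          rw [sum_const, card_range, nsmul_eq_mul]
          push_cast
          ring
      _ ≤ Real.exp (ε * n) * Real.exp (ε * n) := by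
          have h7 : 2 * ((n : ℝ) + 1) ≤ Real.exp (ε * n) := by
            have h8 : (4 : ℝ) * n ≤ Real.exp (2 * (1 + Real.log n)) := by
              rw [show 2 * (1 + Real.log n) = (1 + 1) + (Real.log n + Real.log n) by ring,
                Real.exp_add, Real.exp_add, Real.exp_add, Real.exp_log hn0]
              have h10 := Real.add_one_le_exp (1 : ℝ)
              have h9 : (4 : ℝ) ≤ Real.exp 1 * Real.exp 1 := by nlinarith
              have h11 : (n : ℝ) ≤ n * n := by nlinarith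
              nlinarith
            have h9 := Real.exp_le_exp.2 h1
            linarith
          have hpos := Real.exp_pos (ε * n)
          nlinarith
      _ = Real.exp (2 * ε * n) := by
          rw [← Real.exp_add]
          congr 1
          ring
  have hsq : ((famZ (n / 2) (√T)).ncard : ℝ) ≤ Real.exp (ε * n) := by
    refine (hfam (n / 2) (√T) (by rw [Real.one_le_sqrt]; exact hT1)).trans (Real.exp_le_exp.2 ?_)
    rw [Real.sq_sqrt hT0]
    have h7 : ph (n / 2) ≤ ph n := ph_mono (Nat.div_le_self n 2)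
    have h8 : ph n ≤ 2 * (n : ℝ) ^ (1 / 2 + δ / 2) := ph_le hn2 h4
    have h9 : T * (n : ℝ) ^ (1 / 2 + δ / 2) * (n : ℝ) ^ (δ / 2) = n := by
      rw [hT, ← Real.rpow_add hn0, ← Real.rpow_add hn0]
      have : 1 / 2 - δ + (1 / 2 + δ / 2) + δ / 2 = 1 := by ring
      rw [this, Real.rpow_one]
    have h10 : 2 * C ≤ ε * (n : ℝ) ^ (δ / 2) := by
      rw [div_le_iff₀ hε] at h3
      linarith
    have h11 : (0 : ℝ) ≤ T * (n : ℝ) ^ (1 / 2 + δ / 2) := by positivity
    calc C * (T * ph (n / 2)) ≤ C * (T * (2 * (n : ℝ) ^ (1 / 2 + δ / 2))) := by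
          gcongr
          exact h7.trans h8
      _ = 2 * C * (T * (n : ℝ) ^ (1 / 2 + δ / 2)) := by ring
      _ ≤ ε * (n : ℝ) ^ (δ / 2) * (T * (n : ℝ) ^ (1 / 2 + δ / 2)) :=
          mul_le_mul_of_nonneg_right h10 h11
      _ = ε * (T * (n : ℝ) ^ (1 / 2 + δ / 2) * (n : ℝ) ^ (δ / 2)) := by ring
      _ = ε * n := by rw [h9]
  have hZ : ((famZ n T).ncard : ℝ) ≤ Real.exp (3 * ε * n) := by
    refine (rec_count' n hT1).trans ?_
    have h7 : (0 : ℝ) ≤ ((famZ (n / 2) (√T)).ncard : ℝ) := Nat.cast_nonneg _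
    have h8 := Real.exp_pos (2 * ε * n)
    calc (∑ d ∈ range (n + 1), ((famQ d T).ncard : ℝ)) * (famZ (n / 2) (√T)).ncard ≤
        Real.exp (2 * ε * n) * Real.exp (ε * n) := mul_le_mul hsum hsq h7 h8.le
      _ = Real.exp (3 * ε * n) := by
          rw [← Real.exp_add]
          congr 1
          ring
  have hT' : ((famT n T).ncard : ℝ) ≤ (famZ n T).ncard + 1 := by
    exact_mod_cast famT_le n hT0
  have h12 : (2 : ℝ) ≤ Real.exp (ε * n) := by
    have h13 := Real.add_one_le_exp (ε * n)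
    have h14 : 0 ≤ Real.log n := Real.log_nonneg hn1
    linarith
  have h13 : 1 ≤ Real.exp (3 * ε * n) := Real.one_le_exp (by positivity)
  calc ((famT n T).ncard : ℝ) ≤ (famZ n T).ncard + 1 := hT'
    _ ≤ 2 * Real.exp (3 * ε * n) := by linarith
    _ ≤ Real.exp (ε * n) * Real.exp (3 * ε * n) := by
        apply mul_le_mul_of_nonneg_right h12 (Real.exp_pos _).le
    _ = Real.exp (4 * ε * n) := by
        rw [← Real.exp_add]
        congr 1
        ring

/-- R3. -/
theorem W_of_sep (Wq : ∀ δ : ℝ, 0 < δ → ∀ ε : ℝ, 0 < ε → ∀ᶠ n : ℕ in atTop,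
      ((famQ n ((n : ℝ) ^ (1 / 2 - δ))).ncard : ℝ) ≤ Real.exp (ε * n)) :
    ∀ δ : ℝ, 0 < δ → ∀ ε : ℝ, 0 < ε → ∀ᶠ n : ℕ in atTop,
      ((famT n ((n : ℝ) ^ (1 / 2 - δ))).ncard : ℝ) ≤ Real.exp (ε * n) := by
  intro δ hδ ε hε
  have hδ' : 0 < min δ (1 / 4) := lt_min hδ (by norm_num)
  have h1 := W_main hδ' (min_le_right _ _) (Wq (min δ (1 / 4) / 2) (by positivity))
    (ε := ε / 4) (by positivity)
  filter_upwards [h1, eventually_ge_atTop 1] with n h2 h3
  have hn1 : (1 : ℝ) ≤ n := by exact_mod_cast h3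
  have h4 : (n : ℝ) ^ (1 / 2 - δ) ≤ (n : ℝ) ^ (1 / 2 - min δ (1 / 4)) :=
    Real.rpow_le_rpow_of_exponent_le hn1 (by linarith [min_le_left δ (1 / 4)])
  have h5 := famT_mono n h4 (by positivity)
  have h6 : ((famT n ((n : ℝ) ^ (1 / 2 - δ))).ncard : ℝ) ≤
      ((famT n ((n : ℝ) ^ (1 / 2 - min δ (1 / 4)))).ncard : ℝ) := by exact_mod_cast h5
  refine (h6.trans h2).trans (le_of_eq ?_)
  congr 1
  ring

end Pool.Agent.Helper79.LC
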